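import Pool.Agent.H30PX.Main
import Pool.Agent.H30H.Count

/-!
# A positive proportion with trivial 2-Selmer groups over all the admissible extensions, in the ordering
# with normalized absolute values (helper30)
-/

set_option autoImplicit false
set_option linter.all false

open Polynomial IsDedekindDomain NumberField
open scoped Classical

namespace Pool.Agent.H30PY

open Pool.Agent.N783.PF (Bd fF Ht SelZero Min Good rd)
open Pool.Agent.N61.PF (pol disc_ne fF_eq eq_pol)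
open Pool.Agent.H30PX
open Pool.Agent.H30H (Admissible extend SplitsCompletely Ramified)

variable {F : Type} [Field F] [NumberField F]

section field

variable {M : Type} [Field M] [NumberField M]

theorem fF_pol (a b : 𝓞 M) : fF (pol a b) = X ^ 3 + C (a : M) * X + C (b : M) := by
  unfold pol
  simp [fF]

theorem good_sc' {a b : 𝓞 M} (hirr : Irreducible (fF (pol a b))) (hsel : SelZero (pol a b))
    (u : (𝓞 M)ˣ) : Good (sc u (a, b)) := by
  have hu : ((u : 𝓞 M) : M) ≠ 0 := by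
    intro h0
    exact u.ne_zero (RingOfIntegers.ext (by rw [h0]; rfl))
  have hm : (fF (pol a b)).Monic := by
    unfold fF
    exact (Pool.Agent.N61.PF.pol_monic a b).map _
  have h1 : Irreducible ((fF (pol a b)).scaleRoots (((u : 𝓞 M) : M) ^ 2)) :=
    Pool.Agent.N170.PF.irr_scale (pow_ne_zero _ hu) hirr
  have h2 : Pool.Agent.N874.QM.SelM M ((fF (pol a b)).scaleRoots (((u : 𝓞 M) : M) ^ 2)) :=
    selM_scale hm hu hsel
  have e1 : (((sc u (a, b)).1 : 𝓞 M) : M) = ((u : 𝓞 M) : M) ^ 4 * ((a : 𝓞 M) : M) := by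
    show algebraMap (𝓞 M) M ((u : 𝓞 M) ^ 4 * a) = _
    rw [map_mul, map_pow]
  have e2 : (((sc u (a, b)).2 : 𝓞 M) : M) = ((u : 𝓞 M) : M) ^ 6 * ((b : 𝓞 M) : M) := by
    show algebraMap (𝓞 M) M ((u : 𝓞 M) ^ 6 * b) = _
    rw [map_mul, map_pow]
  have h3 : (fF (pol a b)).scaleRoots (((u : 𝓞 M) : M) ^ 2) =
      X ^ 3 + C (((sc u (a, b)).1 : 𝓞 M) : M) * X + C (((sc u (a, b)).2 : 𝓞 M) : M) := by
    rw [fF_pol, cubic_scale, e1, e2]
  rw [h3] at h1 h2
  have hd := disc_ne h1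
  have hs := Pool.Agent.N783.PF.selc M _ _ hd h1 h2
  obtain ⟨hdiv, hsha⟩ := Pool.Agent.N713.QM.gfc M _ _ hd hs
  obtain ⟨hf, ho⟩ := Pool.Agent.N459.QM.finc M _ _ hd hdiv
  exact ⟨hs, hsha, hf, ho⟩

end field

/-- The pair over the extension. -/
noncomputable def up (M : Type) [Field M] [NumberField M] [Algebra F M] (p : 𝓞 F × 𝓞 F) :
    𝓞 M × 𝓞 M := (algebraMap (𝓞 F) (𝓞 M) p.1, algebraMap (𝓞 F) (𝓞 M) p.2)

/-- The groups are trivial over all the admissible extensions. -/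
def GoodAll (p : 𝓞 F × 𝓞 F) : Prop :=
  ∀ (M : Type) [Field M] [NumberField M] [Algebra F M], Admissible M (pol p.1 p.2) →
    Good (up M p)

theorem extend_pol (M : Type) [Field M] [NumberField M] [Algebra F M] (a b : 𝓞 F) :
    extend M (pol a b) = pol (algebraMap (𝓞 F) (𝓞 M) a) (algebraMap (𝓞 F) (𝓞 M) b) := by
  unfold extend pol
  simp

theorem up_sc (M : Type) [Field M] [NumberField M] [Algebra F M] (u : (𝓞 F)ˣ) (p : 𝓞 F × 𝓞 F) :
    up M (sc u p) = sc (Units.map (algebraMap (𝓞 F) (𝓞 M)).toMonoidHom u) (up M p) := by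
  unfold up sc
  refine Prod.ext ?_ ?_
  · show algebraMap (𝓞 F) (𝓞 M) ((u : 𝓞 F) ^ 4 * p.1) = _
    rw [map_mul, map_pow]
    rfl
  · show algebraMap (𝓞 F) (𝓞 M) ((u : 𝓞 F) ^ 6 * p.2) = _
    rw [map_mul, map_pow]
    rfl

theorem pol_sc (u : 𝓞 F) (a b : 𝓞 F) :
    pol (u ^ 4 * a) (u ^ 6 * b) = (pol a b).scaleRoots (u ^ 2) := by
  have hd : (pol a b).natDegree = 3 := Pool.Agent.N61.PF.pol_natDegree a b
  ext n
  rw [coeff_scaleRoots, hd]
  unfold pol
  simp only [coeff_add, coeff_X_pow, coeff_C_mul, coeff_X, coeff_C]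
  rcases n with _ | _ | _ | _ | n
  · simp
    ring
  · simp
    ring
  · simp
  · simp
  · simp

theorem scale_mod' {f : (𝓞 F)[X]} (hm : f.Monic) (v : HeightOneSpectrum (𝓞 F)) (s : 𝓞 F) :
    (f.scaleRoots s).map (Ideal.Quotient.mk v.asIdeal) =
      (f.map (Ideal.Quotient.mk v.asIdeal)).scaleRoots (Ideal.Quotient.mk v.asIdeal s) := by
  haveI := v.isPrime
  haveI : Nontrivial (𝓞 F ⧸ v.asIdeal) := Ideal.Quotient.nontrivial_iff.2 v.isPrime.ne_top
  rw [map_scaleRoots]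
  rw [hm.leadingCoeff, map_one]
  exact one_ne_zero

/-- Admissible extensions of the scaled polynomial. -/
theorem adm_scale {M : Type} [Field M] [NumberField M] [Algebra F M] (u : (𝓞 F)ˣ) {a b : 𝓞 F}
    (h : Admissible M (pol ((u : 𝓞 F) ^ 4 * a) ((u : 𝓞 F) ^ 6 * b))) :
    Admissible M (pol a b) := by
  have hm := Pool.Agent.N61.PF.pol_monic a b
  rw [pol_sc] at h
  refine ⟨h.galois, h.degree, h.two, h.real, fun v hv => ?_, fun v h2 hv => ?_⟩
  · have h1 := h.ram v hv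
    haveI := v.isMaximal
    letI : Field (𝓞 F ⧸ v.asIdeal) := Ideal.Quotient.field _
    rw [scale_mod' hm] at h1
    exact Pool.Agent.N874.TW.irr_scale (hm.map _).ne_zero h1
  · apply h.split v h2
    haveI := v.isMaximal
    letI : Field (𝓞 F ⧸ v.asIdeal) := Ideal.Quotient.field _
    rw [scale_mod' hm, hv, natDegree_scaleRoots]
    ext n
    rw [coeff_scaleRoots, natDegree_X_pow, coeff_X_pow]
    by_cases hn : n = (pol a b).natDegree
    · rw [if_pos hn, hn, Nat.sub_self, pow_zero, mul_one]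
    · rw [if_neg hn, zero_mul]

theorem goodAll_sc {B : ℕ} {f : (𝓞 F)[X]} (h : Ht 1 B f) (hG : Pool.Agent.H30H.Good F 1 f)
    (u : (𝓞 F)ˣ) : GoodAll (sc u (f.coeff 1, f.coeff 0)) := by
  intro M _ _ _ hadm
  have e := eq_pol h
  have h1 : Admissible M f := by
    rw [e]
    exact adm_scale u hadm
  obtain ⟨h2, h3⟩ := hG.2.2 M h1
  have h4 : extend M f = pol (algebraMap (𝓞 F) (𝓞 M) (f.coeff 1))
      (algebraMap (𝓞 F) (𝓞 M) (f.coeff 0)) := by
    conv_lhs => rw [e]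
    exact extend_pol M _ _
  rw [h4] at h2 h3
  rw [up_sc]
  exact good_sc' h3 h2 _

theorem map_self (φ : 𝓞 F →+* 𝓞 F) (h : ∀ x : 𝓞 F, φ x = x) (I : Ideal (𝓞 F)) :
    I.map φ = I := by
  have e : φ = RingHom.id _ := RingHom.ext h
  rw [e, Ideal.map_id]

theorem eq_of_le' {v w : HeightOneSpectrum (𝓞 F)} (h : v.asIdeal ≤ w.asIdeal) : v = w := by
  ext1
  exact v.isMaximal.eq_of_le w.isPrime.ne_top h

theorem not_le_sq (v w : HeightOneSpectrum (𝓞 F)) : ¬ v.asIdeal ≤ w.asIdeal ^ 2 := by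
  intro h
  have h1 := eq_of_le' (h.trans (Ideal.pow_le_self two_ne_zero))
  rw [h1] at h
  exact absurd h (not_le_of_gt (Ideal.pow_lt_self w.asIdeal w.ne_bot w.isPrime.ne_top 2 le_rfl))

theorem split_self (v : HeightOneSpectrum (𝓞 F)) : SplitsCompletely F v := by
  intro w hw
  rw [map_self _ (fun x => RingOfIntegers.ext rfl)] at hw ⊢
  refine ⟨not_le_sq v w, ?_⟩
  rw [eq_of_le' hw]

/-- The field itself is admissible. -/
theorem adm_self (f : (𝓞 F)[X]) : Admissible F f := by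
  refine ⟨inferInstance, ⟨0, by simp⟩, fun v _ => split_self v, fun ρ => ⟨ρ, fun x => rfl⟩, ?_,
    fun v _ _ => split_self v⟩
  rintro v ⟨w, hw⟩
  rw [map_self _ (fun x => RingOfIntegers.ext rfl)] at hw
  exact absurd hw (not_le_sq v w)

/-- The lower bound for the number of the good members of the box. -/
theorem box_lower' {c C : ℝ} (hc : 0 < c) (hC : 0 < C)
    (h1 : ∀ R : ℝ, 1 ≤ R → {a : 𝓞 F | Bd (a : F) R}.Finite ∧
      R ^ Module.finrank ℚ F ≤ C * ({a : 𝓞 F | Bd (a : F) R}.ncard : ℝ)) {B : ℕ} (hB1 : 1 ≤ B)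
    (hm : {f : (𝓞 F)[X] | Ht 1 B f}.Finite ∧ c * ({f : (𝓞 F)[X] | Ht 1 B f}.ncard : ℝ) ≤
    ({f : (𝓞 F)[X] | Ht 1 B f ∧ Pool.Agent.H30H.Good F 1 f}.ncard : ℝ))
    {R L : ℝ} {u : (𝓞 F)ˣ} (hu : ∀ v : InfinitePlace F,
      Real.exp ((L / v.mult - Pool.Agent.H30PX.rd F * L) / 2 - R) ≤ v ((u : 𝓞 F) : F) ∧
      v ((u : 𝓞 F) : F) ≤ Real.exp ((L / v.mult - Pool.Agent.H30PX.rd F * L) / 2 + R))
    (hB : (B : ℝ) ≤ Real.exp (Pool.Agent.H30PX.rd F * L - 2 * R))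
    (hfin : {p : 𝓞 F × 𝓞 F | Box (Real.exp (6 * L)) p}.Finite) :
    c * (B : ℝ) ^ (5 * Module.finrank ℚ F) ≤
      C ^ 2 * ({p : 𝓞 F × 𝓞 F | Box (Real.exp (6 * L)) p ∧ GoodAll p}.ncard : ℝ) := by
  have hl := Pool.Agent.N61.PF.ht_lower hC h1 hB1 hm.1
  have h5 : ({f : (𝓞 F)[X] | Ht 1 B f ∧ Pool.Agent.H30H.Good F 1 f}.ncard : ℝ) ≤
      ({p : 𝓞 F × 𝓞 F | Box (Real.exp (6 * L)) p ∧ GoodAll p}.ncard : ℝ) := by
    have h6 := Set.ncard_le_ncard_of_injOn
      (fun f : (𝓞 F)[X] => sc u (f.coeff 1, f.coeff 0))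
      (s := {f : (𝓞 F)[X] | Ht 1 B f ∧ Pool.Agent.H30H.Good F 1 f})
      (t := {p : 𝓞 F × 𝓞 F | Box (Real.exp (6 * L)) p ∧ GoodAll p})
      (by
        rintro f ⟨hf, hgood⟩
        have hg := goodAll_sc hf hgood u
        have hirr := hgood.1
        refine ⟨?_, hg⟩
        rw [box_iff' rfl]
        refine ⟨?_, ?_⟩
        · rw [sc_disc]
          refine mul_ne_zero (pow_ne_zero _ u.ne_zero) ?_
          intro h0
          rw [fF_eq hf] at hirr
          apply disc_ne hirr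
          have h1 := congrArg (algebraMap (𝓞 F) F) h0
          simp only [map_add, map_mul, map_pow, map_zero] at h1
          have e4 : algebraMap (𝓞 F) F 4 = 4 := map_ofNat _ 4
          have e27 : algebraMap (𝓞 F) F 27 = 27 := map_ofNat _ 27
          rw [e4, e27] at h1
          exact h1
        · exact sc_forth hu hB (hf.ht 1 (by norm_num)) (hf.ht 0 (by norm_num)))
      (by
        intro f hf f' hf' h
        have h7 := sc_inj u h
        have e := Prod.mk.injEq .. ▸ h7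
        rw [eq_pol hf.1, eq_pol hf'.1, e.1, e.2])
      (hfin.subset fun p hp => hp.1)
    exact_mod_cast h6
  calc c * (B : ℝ) ^ (5 * Module.finrank ℚ F)
      ≤ c * (C ^ 2 * ({f : (𝓞 F)[X] | Ht 1 B f}.ncard : ℝ)) :=
        mul_le_mul_of_nonneg_left hl hc.le
    _ = C ^ 2 * (c * ({f : (𝓞 F)[X] | Ht 1 B f}.ncard : ℝ)) := by ring
    _ ≤ C ^ 2 * ({f : (𝓞 F)[X] | Ht 1 B f ∧ Pool.Agent.H30H.Good F 1 f}.ncard : ℝ) :=
        mul_le_mul_of_nonneg_left hm.2 (by positivity)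
    _ ≤ _ := mul_le_mul_of_nonneg_left h5 (by positivity)

theorem many3 (F : Type) [Field F] [NumberField F] : ∃ c : ℝ, 0 < c ∧ ∃ B₀ : ℕ, ∀ B ≥ B₀,
    {f : (𝓞 F)[X] | Ht 1 B f}.Finite ∧ c * ({f : (𝓞 F)[X] | Ht 1 B f}.ncard : ℝ) ≤
    ({f : (𝓞 F)[X] | Ht 1 B f ∧ Pool.Agent.H30H.Good F 1 f}.ncard : ℝ) := by
  obtain ⟨f₁, -, c, hc, B₀, h⟩ := Pool.Agent.H30H.many2 1 F le_rfl
  refine ⟨c, hc, B₀, fun B hB => ?_⟩
  obtain ⟨h1, h2⟩ := h B hB
  refine ⟨h1, h2.trans ?_⟩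
  have h3 : {f : (𝓞 F)[X] | Ht 1 B f ∧ Pool.Agent.H30H.Good F 1 f ∧
      ∀ n, (8 : 𝓞 F) ∣ f.coeff n - f₁.coeff n}.ncard ≤
      {f : (𝓞 F)[X] | Ht 1 B f ∧ Pool.Agent.H30H.Good F 1 f}.ncard :=
    Set.ncard_le_ncard (fun f hf => ⟨hf.1, hf.2.1⟩) (h1.subset fun f hf => hf.1)
  exact_mod_cast h3

theorem mainBox' (F : Type) [Field F] [NumberField F] : ∃ c : ℝ, 0 < c ∧ ∃ X₀ : ℝ, ∀ X : ℝ,
    {p : 𝓞 F × 𝓞 F | Box X p}.Finite ∧ (X₀ ≤ X → 0 < {p : 𝓞 F × 𝓞 F | Box X p}.ncard ∧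
      c * ({p : 𝓞 F × 𝓞 F | Box X p}.ncard : ℝ) ≤
        ({p : 𝓞 F × 𝓞 F | Box X p ∧ GoodAll p}.ncard : ℝ)) := by
  obtain ⟨-, C, hC, hlow, hup⟩ := Pool.Agent.N490.PF.pts F
  obtain ⟨c, hc, B₀, hmain⟩ := many3 F
  obtain ⟨R, hR, hbal⟩ := exists_bal F
  set d := Module.finrank ℚ F with hd
  have hrd := rd_pos (F := F)
  have hfin : ∀ X : ℝ, {p : 𝓞 F × 𝓞 F | Box X p}.Finite := by
    intro X
    have hX1 : 1 ≤ max X 1 := le_max_right _ _
    have hX0 : 0 < max X 1 := lt_of_lt_of_le one_pos hX1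
    have e : max X 1 = Real.exp (6 * (Real.log (max X 1) / 6)) := by
      rw [mul_div_cancel₀ _ (by norm_num : (6 : ℝ) ≠ 0), Real.exp_log hX0]
    obtain ⟨u, hu⟩ := hbal (Real.log (max X 1) / 6)
    have h1 := (box_upper hC hup hR (div_nonneg (Real.log_nonneg hX1) (by norm_num)) hu).1
    rw [← e] at h1
    exact h1.subset fun p hp => box_mono (le_max_left _ _) hp
  set K : ℝ := c / (C ^ 2 * 2 ^ (5 * d)) / (C ^ 2 * 4) * Real.exp (-(20 * d * R)) with hK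
  refine ⟨K, by positivity, Real.exp (6 * ((2 * R + Real.log (B₀ + 2)) / Pool.Agent.H30PX.rd F)),
    fun X => ⟨hfin X, fun hX => ?_⟩⟩
  have hX0 : 0 < X := lt_of_lt_of_le (Real.exp_pos _) hX
  set L : ℝ := Real.log X / 6 with hL
  have e : X = Real.exp (6 * L) := by
    rw [hL, mul_div_cancel₀ _ (by norm_num : (6 : ℝ) ≠ 0), Real.exp_log hX0]
  have hB02 : (2 : ℝ) ≤ (B₀ : ℝ) + 2 := by
    have : (0 : ℝ) ≤ B₀ := Nat.cast_nonneg _
    linarith
  have hL1 : (2 * R + Real.log (B₀ + 2)) / Pool.Agent.H30PX.rd F ≤ L := by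
    rw [e] at hX
    have := Real.exp_le_exp.1 hX
    linarith
  have hL2 : 2 * R + Real.log (B₀ + 2) ≤ Pool.Agent.H30PX.rd F * L := by
    rw [div_le_iff₀ hrd] at hL1
    linarith
  have hlog : 0 ≤ Real.log ((B₀ : ℝ) + 2) := Real.log_nonneg (by linarith)
  have hL0 : 0 ≤ L := by
    have : 0 ≤ (2 * R + Real.log (B₀ + 2)) / Pool.Agent.H30PX.rd F :=
      div_nonneg (by linarith) hrd.le
    linarith
  obtain ⟨u, hu⟩ := hbal L
  set x : ℝ := Real.exp (Pool.Agent.H30PX.rd F * L - 2 * R) with hx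
  have hx2 : (B₀ : ℝ) + 2 ≤ x := by
    rw [hx, ← Real.log_le_iff_le_exp (by linarith)]
    linarith
  set B : ℕ := ⌊x⌋₊ with hBdef
  have hBx : (B : ℝ) ≤ x := Nat.floor_le (by linarith)
  have hBx' : x < B + 1 := Nat.lt_floor_add_one x
  have hBB : B₀ ≤ B := by
    have : (B₀ : ℝ) < B := by linarith
    exact_mod_cast this.le
  have hB1 : 1 ≤ B := by
    have h0 : (0 : ℝ) ≤ B₀ := Nat.cast_nonneg _
    have : (1 : ℝ) ≤ B := by linarith
    exact_mod_cast this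
  have hB2 : x / 2 ≤ B := by
    have : (1 : ℝ) ≤ B := by exact_mod_cast hB1
    linarith
  have hupp := (box_upper hC hup hR hL0 hu).2
  rw [← hd] at hupp
  have hloww := box_lower' hc hC hlow hB1 (hmain B hBB) hu hBx (e ▸ hfin X)
  rw [← e, ← hd] at hloww
  rw [← e] at hupp
  constructor
  · rw [Set.ncard_pos (hfin X)]
    refine ⟨(1, 1), ?_⟩
    show Box X (1, 1)
    rw [box_iff' e]
    refine ⟨by norm_num, fun v => ?_⟩
    have h3 : v ((1 : 𝓞 F) : F) = 1 := by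
      show v (algebraMap (𝓞 F) F 1) = 1
      rw [map_one, map_one]
    have h4 : 0 ≤ L / v.mult := div_nonneg hL0 (mult_pos v).le
    exact ⟨h3.le.trans (Real.one_le_exp (by linarith)), h3.le.trans (Real.one_le_exp (by linarith))⟩
  · have hC2 : 0 < C ^ 2 := by positivity
    have h7 : c * ((x / 2) ^ (5 * d)) ≤
        C ^ 2 * ({p : 𝓞 F × 𝓞 F | Box X p ∧ GoodAll p}.ncard : ℝ) := by
      refine le_trans ?_ hloww
      have : 0 ≤ x / 2 := by positivity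
      gcongr
    have h8 : (x / 2) ^ (5 * d) = Real.exp (5 * d * (Pool.Agent.H30PX.rd F * L - 2 * R)) /
        2 ^ (5 * d) := by
      rw [div_pow, hx, ← Real.exp_nat_mul]
      congr 2
      push_cast
      ring
    rw [h8] at h7
    calc K * ({p : 𝓞 F × 𝓞 F | Box X p}.ncard : ℝ)
        ≤ K * (C ^ 2 * 4 * Real.exp ((d : ℝ) * (5 * (Pool.Agent.H30PX.rd F * L) + 10 * R))) :=
          mul_le_mul_of_nonneg_left hupp (by positivity)
      _ = (c / C ^ 2) * ((Real.exp (-(20 * d * R)) *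
            Real.exp ((d : ℝ) * (5 * (Pool.Agent.H30PX.rd F * L) + 10 * R))) / 2 ^ (5 * d)) := by
          rw [hK]
          field_simp
      _ = (c / C ^ 2) * (Real.exp (5 * d * (Pool.Agent.H30PX.rd F * L - 2 * R)) / 2 ^ (5 * d)) := by
          rw [← Real.exp_add]
          congr 3
          ring
      _ = (c * (Real.exp (5 * d * (Pool.Agent.H30PX.rd F * L - 2 * R)) / 2 ^ (5 * d))) / C ^ 2 := by
          ring
      _ ≤ (C ^ 2 * ({p : 𝓞 F × 𝓞 F | Box X p ∧ GoodAll p}.ncard : ℝ)) / C ^ 2 := by gcongr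
      _ = _ := by field_simp

end Pool.Agent.H30PY
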